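import Pool.Agent.H77.EcB

namespace Pool.Agent.Results.MP_4db40a_lc.NotOrdered

open Pool.Agent.H77.Ec

theorem result : (EC (SLT 2) \ EC Ordered).Nonempty := ⟨LL, in_slt, not_ord⟩

end Pool.Agent.Results.MP_4db40a_lc.NotOrdered
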